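import Mathlib
import Pool.Agent.Lib.MP_770c06_an.N.Green

/-! The monomials `q^(-b) |x|^(-j)`, `q = |x| - ⟪e, x⟫`, their Laplacian and axial derivative. -/

open Metric Set Filter Topology InnerProductSpace Laplacian
open scoped RealInnerProductSpace

namespace Pool.Agent.Lib.MP_770c06_an.N

variable {M : ℕ}

/-- the parabolic coordinate -/
noncomputable def qf (e x : VN M) : ℝ := ‖x‖ - ⟪e, x⟫

/-- the monomial -/
noncomputable def mon (e : VN M) (b j : ℝ) (x : VN M) : ℝ := qf e x ^ (-b) * ‖x‖ ^ (-j)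

theorem mon_lapnorm {x : VN M} (hx : x ≠ 0) : Δ (fun y : VN M => ‖y‖) x = (M + 2) / ‖x‖ := by
  have hn : 0 < ‖x‖ := norm_pos_iff.2 hx
  have hpos : 0 < ‖x - 0‖ ^ 2 := by rw [sub_zero]; positivity
  have h := laplacian_chain (f := fun y : VN M => ‖y - 0‖ ^ 2) (contDiff_normsq 0).contDiffAt
    (hasFDerivAt_normsq 0 x) (φ := fun t => √t) (φ' := fun t => 1 / (2 * √t))
    (φ'' := -(1 / (4 * ‖x‖ ^ 3))) ?_ ?_
  · simp only [sub_zero, Real.sqrt_sq (norm_nonneg _)] at h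
    have h0 := laplacian_normsq (0 : VN M) x
    simp only [sub_zero] at h0
    rw [h, h0, rankN, norm_smul]
    simp only [Real.norm_ofNat]
    push_cast
    field_simp
    ring
  · filter_upwards [lt_mem_nhds hpos] with t ht
    exact Real.hasDerivAt_sqrt ht.ne'
  · have hs : √(‖x - 0‖ ^ 2) = ‖x‖ := by rw [sub_zero, Real.sqrt_sq hn.le]
    have := (hasDerivAt_const _ (1 : ℝ)).div ((Real.hasDerivAt_sqrt hpos.ne').const_mul 2)
      (by rw [hs]; positivity)
    refine this.congr_deriv ?_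
    rw [hs]
    field_simp
    ring

theorem mon_dpow (b : ℝ) {t : ℝ} (ht : 0 < t) :
    HasDerivAt (fun t : ℝ => t ^ (-b)) (-b * t ^ (-(b + 1))) t := by
  have := Real.hasDerivAt_rpow_const (x := t) (p := -b) (Or.inl ht.ne')
  rwa [show -b - 1 = -(b + 1) by ring] at this

theorem mon_step (b : ℝ) {t : ℝ} (ht : 0 < t) : t ^ (-(b + 1)) = t ^ (-b) * t⁻¹ := by
  rw [show -(b + 1) = -b + -1 by ring, Real.rpow_add ht, Real.rpow_neg_one]

theorem mon_lappow {f : VN M → ℝ} {x a : VN M} (hf : ContDiffAt ℝ 2 f x)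
    (ha : HasFDerivAt f (innerSL ℝ a) x) (hp : 0 < f x) (b : ℝ) :
    ContDiffAt ℝ 2 (fun y => f y ^ (-b)) x ∧
    HasFDerivAt (fun y => f y ^ (-b)) (innerSL ℝ ((-b * f x ^ (-(b + 1))) • a)) x ∧
    Δ (fun y => f y ^ (-b)) x =
      b * (b + 1) * f x ^ (-(b + 1 + 1)) * ‖a‖ ^ 2 - b * f x ^ (-(b + 1)) * Δ f x := by
  refine ⟨hf.rpow_const_of_ne hp.ne', ?_, ?_⟩
  · refine ((mon_dpow b hp).comp_hasFDerivAt x ha).congr_fderiv ?_
    ext v
    simp
  · have h := laplacian_chain hf ha (φ := fun t => t ^ (-b))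
      (φ' := fun t => -b * t ^ (-(b + 1))) (φ'' := -b * (-(b + 1) * f x ^ (-(b + 1 + 1))))
      (by filter_upwards [lt_mem_nhds hp] with t ht using mon_dpow b ht)
      ((mon_dpow (b + 1) hp).const_mul (-b))
    rw [h]
    ring

variable {e : VN M}

theorem qf_ne {x : VN M} (hq : 0 < qf e x) : x ≠ 0 := by
  rintro rfl
  simp [qf] at hq

theorem qf_cont : Continuous (qf e) := by
  unfold qf
  fun_prop

theorem qf_nonneg (he : ‖e‖ = 1) (x : VN M) : 0 ≤ qf e x := by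
  have := real_inner_le_norm e x
  rw [he, one_mul] at this
  unfold qf
  linarith

theorem qf_le (he : ‖e‖ = 1) (x : VN M) : qf e x ≤ 2 * ‖x‖ := by
  have := abs_real_inner_le_norm e x
  rw [he, one_mul] at this
  have := neg_abs_le ⟪e, x⟫
  unfold qf
  linarith

theorem qf_up (he : ‖e‖ = 1) (x : VN M) {s : ℝ} (hs : 0 ≤ s) : qf e (x + s • e) ≤ qf e x := by
  have h := norm_add_le x (s • e)
  rw [norm_smul, he, Real.norm_of_nonneg hs, mul_one] at h
  unfold qf
  rw [inner_add_right, inner_smul_right, real_inner_self_eq_norm_sq, he]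
  linarith

theorem qf_smul (x : VN M) {s : ℝ} (hs : 0 ≤ s) : qf e (s • x) = s * qf e x := by
  unfold qf
  rw [norm_smul, inner_smul_right, Real.norm_of_nonneg hs]
  ring

theorem qf_fd {x : VN M} (hx : x ≠ 0) :
    HasFDerivAt (qf e) (innerSL ℝ (‖x‖⁻¹ • x - e)) x := by
  rw [map_sub]
  exact (hasFDerivAt_norm' hx).sub (innerSL ℝ e).hasFDerivAt

theorem mon_nonneg (he : ‖e‖ = 1) (b j : ℝ) (x : VN M) : 0 ≤ mon e b j x :=
  mul_nonneg (Real.rpow_nonneg (qf_nonneg he x) _) (Real.rpow_nonneg (norm_nonneg x) _)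

theorem mon_b {x : VN M} (hq : 0 < qf e x) (b j : ℝ) :
    mon e (b + 1) j x = mon e b j x * (qf e x)⁻¹ := by
  unfold mon
  rw [mon_step b hq]
  ring

theorem mon_j {x : VN M} (hq : 0 < qf e x) (b j : ℝ) :
    mon e b (j + 1) x = mon e b j x * ‖x‖⁻¹ := by
  unfold mon
  rw [mon_step j (norm_pos_iff.2 (qf_ne hq))]
  ring

theorem mon_lap (he : ‖e‖ = 1) {x : VN M} (hq : 0 < qf e x) (b j : ℝ) :
    ContDiffAt ℝ 2 (mon e b j) x ∧
    Δ (mon e b j) x = b * (2 * b - M) * mon e (b + 1) (j + 1) x +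
      j * (2 * b + j - M - 1) * mon e b (j + 1 + 1) x := by
  have hx := qf_ne hq
  have hn : 0 < ‖x‖ := norm_pos_iff.2 hx
  have cR : ContDiffAt ℝ 2 (fun y : VN M => ‖y‖) x := contDiffAt_norm ℝ hx
  have cz : ContDiffAt ℝ 2 (fun y : VN M => ⟪e, y⟫) x := (innerSL ℝ e).contDiff.contDiffAt
  have cw : ContDiffAt ℝ 2 (qf e) x := cR.sub cz
  have lz0 : Δ (fun y : VN M => ⟪e, y⟫) x = 0 := by
    simpa using laplacian_affine (innerSL ℝ e) 0 x
  have lw : Δ (qf e) x = (M + 2) / ‖x‖ := by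
    have := cR.laplacian_sub cz
    rw [lz0, mon_lapnorm hx, sub_zero] at this
    exact this
  have nw : ‖‖x‖⁻¹ • x - e‖ ^ 2 = 2 * qf e x / ‖x‖ := by
    rw [norm_sub_sq_real, norm_smul, inner_smul_left, he, real_inner_comm, qf]
    simp
    field_simp
    ring
  have nx : ‖‖x‖⁻¹ • x‖ ^ 2 = 1 := by
    rw [norm_smul, norm_inv, norm_norm, inv_mul_cancel₀ hn.ne', one_pow]
  have ix : ⟪‖x‖⁻¹ • x - e, ‖x‖⁻¹ • x⟫ = qf e x / ‖x‖ := by
    rw [inner_sub_left, real_inner_self_eq_norm_sq, nx, inner_smul_right, qf]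
    field_simp
  obtain ⟨a1, a2, a3⟩ := mon_lappow cw (qf_fd hx) hq b
  obtain ⟨b1, b2, b3⟩ := mon_lappow cR (hasFDerivAt_norm' hx) hn j
  refine ⟨a1.mul b1, ?_⟩
  have lp := laplacian_prod a1 b1 a2 b2
  refine Eq.trans lp ?_
  rw [a3, b3, lw, nw, nx, mon_lapnorm hx, inner_smul_left, inner_smul_right, ix, mon_b hq,
    mon_j hq, mon_j hq, mon_j hq, mon]
  simp only [mon_step _ hq, mon_step _ hn, conj_trivial]
  generalize qf e x ^ (-b) = A
  generalize ‖x‖ ^ (-j) = B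
  field_simp
  ring

theorem mon_axial (he : ‖e‖ = 1) (y : VN M) {s : ℝ} (hq : 0 < qf e (y + s • e)) (b j : ℝ) :
    HasDerivAt (fun s : ℝ => mon e (b + 1) j (y + s • e))
      ((b + 1 - j) * mon e (b + 1) (j + 1) (y + s • e) +
        j * mon e b (j + 1 + 1) (y + s • e)) s := by
  set x := y + s • e with hxd
  have hx := qf_ne hq
  have hn : 0 < ‖x‖ := norm_pos_iff.2 hx
  have hl : HasDerivAt (fun s : ℝ => y + s • e) e s := by
    simpa using ((hasDerivAt_id s).smul_const e).const_add y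
  have d1 : HasDerivAt (fun s : ℝ => qf e (y + s • e)) (-(qf e x / ‖x‖)) s := by
    refine ((qf_fd (e := e) hx).comp_hasDerivAt s hl).congr_deriv ?_
    rw [innerSL_apply_apply, inner_sub_left, inner_smul_left, real_inner_self_eq_norm_sq, he,
      real_inner_comm, qf]
    simp only [conj_trivial]
    field_simp
    ring
  have d2 : HasDerivAt (fun s : ℝ => ‖y + s • e‖) ((‖x‖ - qf e x) / ‖x‖) s := by
    refine ((hasFDerivAt_norm' hx).comp_hasDerivAt s hl).congr_deriv ?_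
    rw [innerSL_apply_apply, inner_smul_left, real_inner_comm, qf]
    simp only [conj_trivial]
    field_simp
    ring
  have d3 := ((mon_dpow (b + 1) hq).comp s d1).mul ((mon_dpow j hn).comp s d2)
  refine d3.congr_deriv ?_
  rw [mon_b hq, mon_j hq, mon_j hq, mon_j hq, mon]
  simp only [Function.comp, ← hxd, mon_step _ hq, mon_step _ hn]
  generalize qf e x ^ (-b) = A
  generalize ‖x‖ ^ (-j) = B
  field_simp
  ring

theorem mon_smul (he : ‖e‖ = 1) (b j : ℝ) (x : VN M) {s : ℝ} (hs : 0 < s) :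
    mon e b j (s • x) = s ^ (-(b + j)) * mon e b j x := by
  unfold mon
  rw [qf_smul x hs.le, norm_smul, Real.norm_of_nonneg hs.le,
    Real.mul_rpow hs.le (qf_nonneg he x), Real.mul_rpow hs.le (norm_nonneg x), neg_add,
    Real.rpow_add hs]
  ring

theorem mon_shift (he : ‖e‖ = 1) {x : VN M} (hq : 0 < qf e x) (b j : ℝ) (i : ℕ) :
    mon e (b - i) (j + i) x ≤ 2 ^ i * mon e b j x := by
  induction i with
  | zero => simp
  | succ i ih =>
    have hn : 0 < ‖x‖ := norm_pos_iff.2 (qf_ne hq)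
    have h1 := mon_b hq (b - (i + 1 : ℕ)) (j + i)
    have h2 := mon_j hq (b - (i + 1 : ℕ)) (j + i)
    rw [show b - ((i + 1 : ℕ) : ℝ) + 1 = b - i by push_cast; ring] at h1
    rw [show j + ((i + 1 : ℕ) : ℝ) = j + i + 1 by push_cast; ring, h2]
    have h3 : mon e (b - (i + 1 : ℕ)) (j + i) x = mon e (b - i) (j + i) x * qf e x := by
      rw [h1]
      field_simp
    have h4 : qf e x * ‖x‖⁻¹ ≤ 2 := by
      rw [← div_eq_mul_inv, div_le_iff₀ hn]
      exact qf_le he x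
    have h5 := mon_nonneg he (b - i) (j + i) x
    rw [h3, mul_assoc, pow_succ]
    calc _ ≤ mon e (b - i) (j + i) x * 2 := mul_le_mul_of_nonneg_left h4 h5
      _ ≤ _ := by linarith

end Pool.Agent.Lib.MP_770c06_an.N
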