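import Mathlib
import Pool.Agent.Lib.MP_770c06_an.N.Mon

/-! The harmonic spike in dimension `M + 3`, `M ≥ 1`. -/

open Metric Set Filter Topology InnerProductSpace Laplacian
open scoped RealInnerProductSpace

namespace Pool.Agent.Lib.MP_770c06_an.N

variable {M : ℕ}

/-- the coefficients -/
noncomputable def cf (M : ℕ) : ℕ → ℝ
  | 0 => 1
  | i + 1 => cf M i * (((M / 2 : ℕ) : ℝ) + i) * (((M / 2 : ℕ) : ℝ) - (i + 1)) /
      (2 * ((M : ℝ) / 2 - (i + 1)) * (i + 1))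

/-- the spike -/
noncomputable def Vf (e x : VN M) : ℝ :=
  ∑ i ∈ Finset.range (M / 2 + 1), cf M i * mon e ((M : ℝ) / 2 - i) (((M / 2 : ℕ) : ℝ) + i) x

/-- the sum of the weighted coefficients -/
noncomputable def Sc (M : ℕ) : ℝ := ∑ i ∈ Finset.range (M / 2 + 1), cf M i * 2 ^ i

theorem spk_k : ((M / 2 : ℕ) : ℝ) ≤ (M : ℝ) / 2 := Nat.cast_div_le

theorem spk_i {i : ℕ} (hi : i + 1 ≤ M / 2) : (i : ℝ) + 1 ≤ ((M / 2 : ℕ) : ℝ) := by
  exact_mod_cast hi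

theorem cf_nonneg : ∀ i, i ≤ M / 2 → 0 ≤ cf M i
  | 0, _ => zero_le_one
  | i + 1, hi => by
    have h1 := cf_nonneg i (by omega)
    have h2 := sub_nonneg.2 (spk_i hi)
    have h3 := sub_nonneg.2 ((spk_i hi).trans spk_k)
    rw [cf]
    positivity

theorem cf_rec {i : ℕ} (hi : i + 1 ≤ M / 2) :
    cf M (i + 1) * (2 * ((M : ℝ) / 2 - (i + 1)) * (i + 1)) =
      cf M i * (((M / 2 : ℕ) : ℝ) + i) * (((M / 2 : ℕ) : ℝ) - (i + 1)) := by
  have h2 := spk_i hi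
  have h3 := spk_k (M := M)
  rcases eq_or_ne ((M : ℝ) / 2 - (i + 1)) 0 with h | h
  · have : ((M / 2 : ℕ) : ℝ) - (i + 1) = 0 := by linarith
    rw [h, this]
    simp
  · rw [cf, div_mul_cancel₀]
    have : (i : ℝ) + 1 ≠ 0 := by positivity
    exact mul_ne_zero (mul_ne_zero two_ne_zero h) this

theorem cf_le {i : ℕ} (hi : i + 1 ≤ M / 2) :
    cf M (i + 1) * (2 * (i + 1)) ≤ cf M i * (((M / 2 : ℕ) : ℝ) + i) := by
  have h2 := spk_i hi
  have h3 := spk_k (M := M)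
  have h4 : 0 ≤ cf M i * (((M / 2 : ℕ) : ℝ) + i) :=
    mul_nonneg (cf_nonneg i (by omega)) (by positivity)
  rcases eq_or_lt_of_le (sub_nonneg.2 (h2.trans h3)) with h | h
  · rw [cf, ← h]
    simpa using h4
  · have h5 := cf_rec hi
    have h6 : cf M i * (((M / 2 : ℕ) : ℝ) + i) * (((M / 2 : ℕ) : ℝ) - (i + 1)) ≤
        cf M i * (((M / 2 : ℕ) : ℝ) + i) * ((M : ℝ) / 2 - (i + 1)) :=
      mul_le_mul_of_nonneg_left (by linarith) h4
    refine le_of_mul_le_mul_right ?_ h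
    linarith

theorem cf_last : cf M (M / 2) * ((M / 2 : ℕ) : ℝ) = 0 := by
  rcases Nat.eq_zero_or_eq_succ_pred (M / 2) with h | h
  · rw [h]
    simp
  · have h1 : ((M / 2 : ℕ) : ℝ) - (((M / 2).pred : ℕ) + 1) = 0 := by
      rw [sub_eq_zero]
      exact_mod_cast h
    have h2 : cf M (M / 2) = 0 := by
      conv_lhs => rw [h]
      rw [Nat.succ_eq_add_one, cf, h1]
      simp
    rw [h2, zero_mul]

theorem spk_sum {x : VN M} (f : ℕ → VN M → ℝ) (c : ℕ → ℝ) (hf : ∀ i, ContDiffAt ℝ 2 (f i) x)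
    (m : ℕ) : ContDiffAt ℝ 2 (fun y => ∑ i ∈ Finset.range m, c i * f i y) x ∧
      Δ (fun y => ∑ i ∈ Finset.range m, c i * f i y) x =
        ∑ i ∈ Finset.range m, c i * Δ (f i) x := by
  induction m with
  | zero => exact ⟨by simpa using contDiffAt_const, by simp [laplacian_const]⟩
  | succ m ih =>
    simp only [Finset.sum_range_succ]
    have h1 : ContDiffAt ℝ 2 (fun y => c m * f m y) x := contDiffAt_const.mul (hf m)
    refine ⟨ih.1.add h1, ?_⟩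
    have h2 := ih.1.laplacian_add h1
    have h3 : Δ (fun y => c m * f m y) x = c m * Δ (f m) x := laplacian_smul (c m) (hf m)
    rw [ih.2, h3] at h2
    exact h2

variable {e : VN M}

theorem Vf_harm (he : ‖e‖ = 1) {x : VN M} (hq : 0 < qf e x) :
    ContDiffAt ℝ 2 (Vf e) x ∧ Δ (Vf e) x = 0 := by
  obtain ⟨h1, h2⟩ := spk_sum (x := x)
    (fun i => mon e ((M : ℝ) / 2 - i) (((M / 2 : ℕ) : ℝ) + i)) (cf M)
    (fun i => (mon_lap he hq _ _).1) (M / 2 + 1)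
  refine ⟨h1, Eq.trans h2 ?_⟩
  simp only [(mon_lap he hq _ _).2, mul_add (cf M _), Finset.sum_add_distrib]
  rw [Finset.sum_range_succ' _ (M / 2), Finset.sum_range_succ _ (M / 2), add_add_add_comm,
    ← Finset.sum_add_distrib, Finset.sum_eq_zero, zero_add]
  · have := cf_last (M := M)
    generalize mon e _ _ x = A
    generalize mon e _ _ x = B
    push_cast
    linear_combination (2 * (2 * ((M : ℝ) / 2 - (M / 2 : ℕ)) + 2 * (M / 2 : ℕ) - M - 1) * B) * this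
  · intro i hi
    have := cf_rec (M := M) (i := i) (Finset.mem_range.1 hi)
    rw [show (M : ℝ) / 2 - ((i + 1 : ℕ) : ℝ) + 1 = (M : ℝ) / 2 - i by push_cast; ring,
      show ((M / 2 : ℕ) : ℝ) + ((i + 1 : ℕ) : ℝ) + 1 = ((M / 2 : ℕ) : ℝ) + i + 1 + 1 by
        push_cast; ring]
    generalize mon e _ _ x = A
    push_cast
    linear_combination (-A) * this

theorem Vf_up (he : ‖e‖ = 1) (y : VN M) {s : ℝ} (hs : 0 ≤ s) (hq : 0 < qf e (y + s • e)) :
    Vf e y ≤ Vf e (y + s • e) := by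
  have hq' : ∀ u ∈ Icc (0 : ℝ) s, 0 < qf e (y + u • e) := by
    intro u hu
    have := qf_up he (y + u • e) (sub_nonneg.2 hu.2)
    rw [add_assoc, ← add_smul, add_sub_cancel] at this
    exact hq.trans_le this
  have hd : ∀ u ∈ Icc (0 : ℝ) s, ∃ d, 0 ≤ d ∧ HasDerivAt (fun u : ℝ => Vf e (y + u • e)) d u := by
    intro u hu
    have h := HasDerivAt.fun_sum (u := Finset.range (M / 2 + 1)) fun i _ =>
      (mon_axial he y (hq' u hu) ((M : ℝ) / 2 - i - 1) (((M / 2 : ℕ) : ℝ) + i)).const_mul (cf M i)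
    simp only [sub_add_cancel] at h
    refine ⟨_, ?_, h⟩
    simp only [mul_add (cf M _), Finset.sum_add_distrib]
    rw [Finset.sum_range_succ' _ (M / 2), Finset.sum_range_succ _ (M / 2), add_add_add_comm,
      ← Finset.sum_add_distrib]
    refine add_nonneg (Finset.sum_nonneg fun i hi => ?_) (add_nonneg ?_ ?_)
    · have h1 := cf_le (M := M) (i := i) (Finset.mem_range.1 hi)
      have h2 := cf_nonneg (M := M) (i + 1) (Finset.mem_range.1 hi)
      have h3 := sub_nonneg.2 (spk_k (M := M))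
      rw [show (M : ℝ) / 2 - ((i + 1 : ℕ) : ℝ) = (M : ℝ) / 2 - i - 1 by push_cast; ring,
        show ((M / 2 : ℕ) : ℝ) + ((i + 1 : ℕ) : ℝ) + 1 = ((M / 2 : ℕ) : ℝ) + i + 1 + 1 by
          push_cast; ring]
      have h4 := mon_nonneg he ((M : ℝ) / 2 - i - 1) (((M / 2 : ℕ) : ℝ) + i + 1 + 1) (y + u • e)
      generalize mon e _ _ _ = A at h4 ⊢
      have h5 := mul_nonneg (add_nonneg (mul_nonneg h2 h3) (sub_nonneg.2 h1)) h4
      push_cast
      linarith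
    · refine mul_nonneg (cf_nonneg 0 (by omega)) (mul_nonneg ?_ (mon_nonneg he _ _ _))
      have := spk_k (M := M)
      push_cast
      linarith
    · exact mul_nonneg (cf_nonneg _ le_rfl) (mul_nonneg (by positivity) (mon_nonneg he _ _ _))
  have hm : MonotoneOn (fun u : ℝ => Vf e (y + u • e)) (Icc 0 s) := by
    refine monotoneOn_of_deriv_nonneg (convex_Icc 0 s) (fun u hu => ?_) (fun u hu => ?_)
      fun u hu => ?_
    · obtain ⟨d, -, h⟩ := hd u hu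
      exact h.continuousAt.continuousWithinAt
    · obtain ⟨d, -, h⟩ := hd u (interior_subset hu)
      exact h.differentiableAt.differentiableWithinAt
    · obtain ⟨d, h0, h⟩ := hd u (interior_subset hu)
      rwa [h.deriv]
  simpa using hm (left_mem_Icc.2 hs) (right_mem_Icc.2 hs) hs

theorem Vf_smul (he : ‖e‖ = 1) (x : VN M) {s : ℝ} (hs : 0 < s) :
    Vf e (s • x) = s ^ (-((M : ℝ) / 2 + (M / 2 : ℕ))) * Vf e x := by
  unfold Vf
  rw [Finset.mul_sum]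
  refine Finset.sum_congr rfl fun i _ => ?_
  rw [mon_smul he _ _ x hs, show (M : ℝ) / 2 - i + (((M / 2 : ℕ) : ℝ) + i) =
    (M : ℝ) / 2 + (M / 2 : ℕ) by ring]
  ring

theorem Vf_lb (he : ‖e‖ = 1) (x : VN M) : mon e ((M : ℝ) / 2) (M / 2 : ℕ) x ≤ Vf e x := by
  have := Finset.single_le_sum (s := Finset.range (M / 2 + 1))
    (f := fun i => cf M i * mon e ((M : ℝ) / 2 - i) (((M / 2 : ℕ) : ℝ) + i) x)
    (fun i hi => mul_nonneg (cf_nonneg i (Nat.lt_succ_iff.1 (Finset.mem_range.1 hi)))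
      (mon_nonneg he _ _ _)) (a := 0) (by simp)
  simpa [cf, Vf] using this

theorem Vf_nonneg (he : ‖e‖ = 1) (x : VN M) : 0 ≤ Vf e x :=
  (mon_nonneg he _ _ x).trans (Vf_lb he x)

theorem Vf_ub (he : ‖e‖ = 1) {x : VN M} (hq : 0 < qf e x) :
    Vf e x ≤ Sc M * mon e ((M : ℝ) / 2) (M / 2 : ℕ) x := by
  unfold Vf Sc
  rw [Finset.sum_mul]
  refine Finset.sum_le_sum fun i hi => ?_
  rw [mul_assoc]
  exact mul_le_mul_of_nonneg_left (mon_shift he hq _ _ i)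
    (cf_nonneg i (Nat.lt_succ_iff.1 (Finset.mem_range.1 hi)))

theorem one_le_Sc : 1 ≤ Sc M := by
  have := Finset.single_le_sum (s := Finset.range (M / 2 + 1)) (f := fun i => cf M i * 2 ^ i)
    (fun i hi => mul_nonneg (cf_nonneg i (Nat.lt_succ_iff.1 (Finset.mem_range.1 hi)))
      (by positivity)) (a := 0) (by simp)
  simpa [cf, Sc] using this

theorem spk_sq {x : VN M} (hq : 0 < qf e x) :
    mon e ((M : ℝ) / 2) (M / 2 : ℕ) x ^ 2 * (qf e x ^ M * ‖x‖ ^ (2 * (M / 2))) = 1 := by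
  have hn : 0 < ‖x‖ := norm_pos_iff.2 (qf_ne hq)
  have h1 : (qf e x ^ (-((M : ℝ) / 2))) ^ 2 * qf e x ^ M = 1 := by
    rw [← Real.rpow_natCast, ← Real.rpow_mul hq.le, ← Real.rpow_natCast, ← Real.rpow_add hq]
    rw [show -((M : ℝ) / 2) * ((2 : ℕ) : ℝ) + M = 0 by push_cast; ring, Real.rpow_zero]
  have h2 : (‖x‖ ^ (-((M / 2 : ℕ) : ℝ))) ^ 2 * ‖x‖ ^ (2 * (M / 2)) = 1 := by
    rw [Real.rpow_neg hn.le, Real.rpow_natCast, pow_mul', ← mul_pow,
      inv_mul_cancel₀ (by positivity), one_pow]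
  unfold mon
  linear_combination (‖x‖ ^ (-((M / 2 : ℕ) : ℝ))) ^ 2 * ‖x‖ ^ (2 * (M / 2)) * h1 + h2

theorem Vf_sq_lb (he : ‖e‖ = 1) {x : VN M} (hq : 0 < qf e x) :
    1 ≤ Vf e x ^ 2 * (qf e x ^ M * ‖x‖ ^ (2 * (M / 2))) := by
  rw [← spk_sq hq]
  exact mul_le_mul_of_nonneg_right (pow_le_pow_left₀ (mon_nonneg he _ _ x) (Vf_lb he x) 2)
    (by positivity)

theorem Vf_sq_ub (he : ‖e‖ = 1) {x : VN M} (hq : 0 < qf e x) :
    Vf e x ^ 2 * (qf e x ^ M * ‖x‖ ^ (2 * (M / 2))) ≤ Sc M ^ 2 := by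
  have h := mul_le_mul_of_nonneg_right (pow_le_pow_left₀ (Vf_nonneg he x) (Vf_ub he hq) 2)
    (show 0 ≤ qf e x ^ M * ‖x‖ ^ (2 * (M / 2)) by positivity)
  rwa [mul_pow, mul_assoc, spk_sq hq, mul_one] at h

theorem Vf_out (he : ‖e‖ = 1) (x : VN M) {s : ℝ} (hs : 1 ≤ s) :
    s⁻¹ ^ (M + 1) * Vf e x ≤ Vf e (s • x) := by
  have hs0 : 0 < s := by linarith
  rw [Vf_smul he x hs0, inv_pow, ← Real.rpow_natCast, ← Real.rpow_neg hs0.le]
  refine mul_le_mul_of_nonneg_right (Real.rpow_le_rpow_of_exponent_le hs ?_) (Vf_nonneg he x)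
  have := spk_k (M := M)
  push_cast
  linarith

theorem Vf_in (hM : 1 ≤ M) (he : ‖e‖ = 1) (x : VN M) {σ : ℝ} (h0 : 0 ≤ σ) (h1 : σ < 1) :
    (1 + σ / 2) * Vf e x ≤ Vf e ((1 - σ) • x) := by
  have hs0 : 0 < 1 - σ := by linarith
  rw [Vf_smul he x hs0]
  refine mul_le_mul_of_nonneg_right ?_ (Vf_nonneg he x)
  have h2 : (1 - σ) ^ (-(1 / 2 : ℝ)) ≤ (1 - σ) ^ (-((M : ℝ) / 2 + (M / 2 : ℕ))) := by
    refine Real.rpow_le_rpow_of_exponent_ge hs0 (by linarith) ?_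
    have h3 : (1 : ℝ) ≤ M := by exact_mod_cast hM
    have h4 : (0 : ℝ) ≤ (M / 2 : ℕ) := by positivity
    linarith
  refine le_trans ?_ h2
  rw [Real.rpow_neg hs0.le, ← Real.sqrt_eq_rpow, ← one_div,
    le_div_iff₀ (Real.sqrt_pos.2 hs0)]
  have h5 := Real.sq_sqrt hs0.le
  have h6 := Real.sqrt_nonneg (1 - σ)
  refine abs_le_one_iff_mul_self_le_one.2 ?_ |>.trans' (le_abs_self _)
  have : (1 + σ / 2) * √(1 - σ) * ((1 + σ / 2) * √(1 - σ)) = (1 + σ / 2) ^ 2 * (1 - σ) := by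
    rw [← h5, Real.sqrt_sq h6]
    ring
  rw [this]
  nlinarith [sq_nonneg σ, mul_nonneg h0 (sq_nonneg σ)]

end Pool.Agent.Lib.MP_770c06_an.N
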