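import Mathlib
import Pool.Agent.Lib.MP_770c06_an.N.Spike

/-! The domain in dimension `M + 3` and its Green function. -/

open Metric Set Filter Topology InnerProductSpace Laplacian
open scoped RealInnerProductSpace

namespace Pool.Agent.Lib.MP_770c06_an.N

variable {M : ℕ}

/-- the component orthogonal to the axis -/
noncomputable def tv (e x : VN M) : VN M := x - ⟪e, x⟫ • e

/-- the regular part of the Green function -/
noncomputable def Hf (e : VN M) (c : ℝ) (x : VN M) : ℝ := -(4⁻¹ ^ (M + 1)) - c * Vf e x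

/-- the domain -/
def Dom (e p : VN M) (c : ℝ) : Set (VN M) :=
  {x | 0 < qf e x ∧ 0 < 1 + ‖x - p‖ ^ (M + 1) * Hf e c x}

/-- the frame and the pole -/
structure Fr (e f p : VN M) (z : ℝ) : Prop where
  he : ‖e‖ = 1
  hf : ‖f‖ = 1
  hef : ⟪e, f⟫ = 0
  hp : p = f + z • e
  z0 : 0 < z
  z1 : z ≤ 1 / (1024 * (M + 1))

variable {e f p : VN M} {z c : ℝ}

theorem tv_sq (he : ‖e‖ = 1) (x : VN M) : ‖tv e x‖ ^ 2 = ‖x‖ ^ 2 - ⟪e, x⟫ ^ 2 := by
  rw [tv, norm_sub_sq_real, norm_smul, he, inner_smul_right, real_inner_comm, mul_one,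
    Real.norm_eq_abs, sq_abs]
  ring

theorem tv_q (he : ‖e‖ = 1) (x : VN M) : ‖tv e x‖ ^ 2 = qf e x * (‖x‖ + ⟪e, x⟫) := by
  rw [tv_sq he, qf]
  ring

theorem tv_le (he : ‖e‖ = 1) (x : VN M) : ‖tv e x‖ ^ 2 ≤ 2 * qf e x * ‖x‖ := by
  have h := qf_nonneg he x
  have : ⟪e, x⟫ = ‖x‖ - qf e x := by simp [qf]
  rw [tv_q he, this]
  nlinarith

theorem tv_line (y v : VN M) (s : ℝ) : tv e (y + s • v) = tv e y + s • tv e v := by
  simp only [tv, inner_add_right, inner_smul_right]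
  module

theorem neg_q_le (x : VN M) : -qf e x ≤ ⟪e, x⟫ := by
  have := norm_nonneg x
  unfold qf
  linarith

theorem Fr.zle (F : Fr e f p z) : z ≤ 1 / 1024 := by
  refine F.z1.trans (one_div_le_one_div_of_le (by norm_num) ?_)
  have : (0 : ℝ) ≤ M := by positivity
  linarith

theorem Fr.ep (F : Fr e f p z) : ⟪e, p⟫ = z := by
  rw [F.hp, inner_add_right, inner_smul_right, F.hef, real_inner_self_eq_norm_sq, F.he]
  ring

theorem Fr.axis (F : Fr e f p z) (s : ℝ) : ‖s • e - p‖ ^ 2 = 1 + (z - s) ^ 2 := by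
  have : s • e - p = (s - z) • e - f := by
    rw [F.hp]
    module
  rw [this, norm_sub_sq_real, norm_smul, inner_smul_left, F.hef, F.he, F.hf, mul_one,
    Real.norm_eq_abs, sq_abs]
  ring

theorem Fr.psq (F : Fr e f p z) : ‖p‖ ^ 2 = 1 + z ^ 2 := by simpa using F.axis 0

theorem Fr.p1 (F : Fr e f p z) : 1 ≤ ‖p‖ := by
  have := F.psq
  nlinarith [norm_nonneg p, sq_nonneg z]

theorem Fr.p2 (F : Fr e f p z) : ‖p‖ ≤ 5 / 4 := by
  have := F.psq
  have := F.zle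
  have := F.z0
  nlinarith [norm_nonneg p]

theorem Fr.fx (F : Fr e f p z) (x : VN M) : |⟪f, x⟫| ≤ ‖tv e x‖ := by
  have h := abs_real_inner_le_norm f (tv e x)
  rwa [F.hf, one_mul, tv, inner_sub_right, inner_smul_right, real_inner_comm e f, F.hef, mul_zero,
    sub_zero] at h

theorem Fr.rho (F : Fr e f p z) (x : VN M) : 1 - ‖tv e x‖ ≤ ‖x - p‖ := by
  have h := abs_real_inner_le_norm f (x - p)
  have h2 : ⟪f, p⟫ = 1 := by
    rw [F.hp, inner_add_right, inner_smul_right, real_inner_comm e f, F.hef,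
      real_inner_self_eq_norm_sq, F.hf]
    ring
  rw [F.hf, one_mul, inner_sub_right, h2] at h
  have h3 := F.fx x
  have := neg_abs_le (⟪f, x⟫ - 1)
  have := le_abs_self ⟪f, x⟫
  linarith

theorem dom_iff {x : VN M} (hx : x ≠ p) :
    0 < 1 + ‖x - p‖ ^ (M + 1) * Hf e c x ↔ 0 < kr p x + Hf e c x := by
  have h : 0 < ‖x - p‖ ^ (M + 1) := pow_pos (norm_pos_iff.2 (sub_ne_zero.2 hx)) _
  have : 1 + ‖x - p‖ ^ (M + 1) * Hf e c x = ‖x - p‖ ^ (M + 1) * (kr p x + Hf e c x) := by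
    rw [kr, inv_pow, mul_add, mul_inv_cancel₀ h.ne']
  rw [this, mul_pos_iff_of_pos_left h]

theorem mem_Dom {x : VN M} (hx : x ≠ p) :
    x ∈ Dom e p c ↔ 0 < qf e x ∧ c * Vf e x < kr p x - 4⁻¹ ^ (M + 1) := by
  refine and_congr_right fun _ => (dom_iff hx).trans ?_
  unfold Hf
  constructor <;> intro h <;> linarith

theorem Fr.pole_mem (F : Fr e f p z) : p ∈ Dom e p c := by
  refine ⟨?_, by simp⟩
  have := F.p1
  have := F.zle
  rw [qf, F.ep]
  linarith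

theorem Hf_harm (he : ‖e‖ = 1) {x : VN M} (hq : 0 < qf e x) :
    ContDiffAt ℝ 2 (Hf e c) x ∧ Δ (Hf e c) x = 0 := by
  obtain ⟨h1, h2⟩ := Vf_harm he hq
  have h3 : ContDiffAt ℝ 2 (fun y => c * Vf e y) x := contDiffAt_const.mul h1
  have h4 : Δ (fun y => c * Vf e y) x = c * Δ (Vf e) x := laplacian_smul c h1
  refine ⟨contDiffAt_const.sub h3, ?_⟩
  have := (contDiffAt_const (c := (-(4⁻¹ ^ (M + 1)) : ℝ))).laplacian_sub h3
  rw [h4, h2, laplacian_const, Pi.zero_apply, mul_zero, sub_zero] at this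
  exact this

theorem isOpen_Dom (he : ‖e‖ = 1) : IsOpen (Dom e p c) := by
  refine isOpen_iff_mem_nhds.2 fun x hx => ?_
  have h1 : ContinuousAt (fun y : VN M => 1 + ‖y - p‖ ^ (M + 1) * Hf e c y) x :=
    continuousAt_const.add (ContinuousAt.mul (by fun_prop) (Hf_harm he hx.1).1.continuousAt)
  filter_upwards [qf_cont.continuousAt.eventually (lt_mem_nhds hx.1),
    h1.eventually (lt_mem_nhds hx.2)] with y h2 h3 using ⟨h2, h3⟩

theorem kr_le {x : VN M} {r : ℝ} (hr : 0 < r) (h : r ≤ ‖x - p‖) : kr p x ≤ r⁻¹ ^ (M + 1) :=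
  pow_le_pow_left₀ (by positivity) (inv_anti₀ hr h) _

theorem Dom_lt (he : ‖e‖ = 1) (hc : 0 < c) {x : VN M} (hx : x ∈ Dom e p c) : ‖x - p‖ < 4 := by
  by_contra h
  have h4 : 4 ≤ ‖x - p‖ := not_lt.1 h
  have hxp : x ≠ p := by
    rintro rfl
    simp only [sub_self, norm_zero] at h4
    linarith
  have h1 := ((mem_Dom hxp).1 hx).2
  have h2 := kr_le (by norm_num) h4
  have h3 := mul_nonneg hc.le (Vf_nonneg he x)
  linarith

theorem Fr.norm_le (F : Fr e f p z) {x : VN M} (h : ‖x - p‖ ≤ 4) : ‖x‖ ≤ 6 := by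
  have := norm_add_le (x - p) p
  rw [sub_add_cancel] at this
  have := F.p2
  linarith

theorem Fr.q_lb (F : Fr e f p z) (hM : 1 ≤ M) (hc : 0 < c) :
    ∃ q0, 0 < q0 ∧ ∀ x ∈ Dom e p c, q0 < qf e x := by
  set A : ℝ := (2 ^ (M + 1) / c) ^ 2 * 6 ^ (2 * (M / 2)) with hA
  have hA0 : 0 < A := by positivity
  refine ⟨min (1 / 100) (1 / (2 * A)), by positivity, fun x hx => ?_⟩
  by_contra h
  rw [not_lt, le_min_iff] at h
  have hq := hx.1
  have hR := F.norm_le (Dom_lt F.he hc hx).le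
  have h1 := tv_le F.he x
  have h2 : ‖tv e x‖ ≤ 1 / 2 := by nlinarith [norm_nonneg (tv e x), norm_nonneg x]
  have h3 : 1 / 2 ≤ ‖x - p‖ := by linarith [F.rho x]
  have hxp : x ≠ p := by
    rintro rfl
    simp only [sub_self, norm_zero] at h3
    linarith
  have h4 := ((mem_Dom hxp).1 hx).2
  have h5 := kr_le (by norm_num) h3
  have h6 : Vf e x ≤ 2 ^ (M + 1) / c := by
    rw [le_div_iff₀ hc]
    have : (0 : ℝ) ≤ 4⁻¹ ^ (M + 1) := by positivity
    norm_num at h5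
    linarith
  have h7 := Vf_sq_lb F.he hq
  have h8 : qf e x ^ M ≤ qf e x := pow_le_of_le_one hq.le (by linarith) (by omega)
  have h9 : Vf e x ^ 2 * (qf e x ^ M * ‖x‖ ^ (2 * (M / 2))) ≤
      (2 ^ (M + 1) / c) ^ 2 * (qf e x * 6 ^ (2 * (M / 2))) := by
    have := Vf_nonneg F.he x
    gcongr
  have h10 := h.2
  rw [le_div_iff₀ (by positivity)] at h10
  have : (2 ^ (M + 1) / c) ^ 2 * (qf e x * 6 ^ (2 * (M / 2))) = qf e x * A := by rw [hA]; ring
  linarith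

theorem Fr.green (F : Fr e f p z) (hM : 1 ≤ M) (hc : 0 < c) :
    IsConnected (Dom e p c) ∧ IsGreenFunction (Dom e p c) p (greenOf p (Hf e c)) := by
  obtain ⟨q0, h0, hq0⟩ := F.q_lb hM hc
  have hS : IsCompact (closedBall p 4 ∩ {x | q0 ≤ qf e x}) :=
    (isCompact_closedBall p 4).inter_right (isClosed_le continuous_const qf_cont)
  have h1 : ∀ x ∈ Dom e p c, ContDiffAt ℝ 2 (Hf e c) x ∧ Δ (Hf e c) x = 0 :=
    fun x hx => Hf_harm F.he hx.1
  have h2 : ∀ x ∈ Dom e p c, x ≠ p → 0 < kr p x + Hf e c x := fun x hx h => (dom_iff h).1 hx.2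
  have h3 : ContinuousOn (Hf e c) (closedBall p 4 ∩ {x | q0 ≤ qf e x}) := fun x hx =>
    (Hf_harm F.he (h0.trans_le hx.2)).1.continuousAt.continuousWithinAt
  have h4 : ∀ x ∈ Dom e p c, closedBall p 4 ∩ {x | q0 ≤ qf e x} ∈ 𝓝 x := fun x hx =>
    mem_of_superset ((isOpen_Dom F.he).mem_nhds hx) fun y hy =>
      ⟨mem_closedBall_iff_norm.2 (Dom_lt F.he hc hy).le, (hq0 y hy).le⟩
  have h5 : ∀ x ∈ closedBall p 4 ∩ {x | q0 ≤ qf e x}, x ≠ p → 0 < kr p x + Hf e c x →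
      x ∈ Dom e p c := fun x hx h h' => ⟨h0.trans_le hx.2, (dom_iff h).2 h'⟩
  exact ⟨green_connected (isOpen_Dom F.he) F.pole_mem h1 h2 hS h3 h4 h5,
    green_isGreen (isOpen_Dom F.he) F.pole_mem h1 h2 hS h3 h4 h5⟩

theorem dom_b1 (he : ‖e‖ = 1) {g : ℝ} (hg : 0 < g) {x : VN M} (hq : 0 < qf e x)
    (h : g ≤ c * Vf e x) : g ^ 2 * (qf e x ^ M * ‖x‖ ^ (2 * (M / 2))) ≤ c ^ 2 * Sc M ^ 2 := by
  have h1 := mul_le_mul_of_nonneg_left (Vf_sq_ub he hq) (sq_nonneg c)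
  refine le_trans ?_ h1
  rw [← mul_assoc (c ^ 2), ← mul_pow]
  gcongr

theorem dom_small (he : ‖e‖ = 1) {g δ : ℝ} (hg : 0 < g) (hδ : 0 < δ) :
    ∃ c0, 0 < c0 ∧ ∀ c, 0 < c → c ≤ c0 → ∀ x : VN M, 0 < qf e x → g ≤ c * Vf e x →
      qf e x ≤ δ := by
  have hS : 0 < Sc M := zero_lt_one.trans_le one_le_Sc
  set m : ℝ := min (1 / 2) ((δ / 2) ^ M * (δ / 2) ^ (2 * (M / 2))) with hm
  have hm0 : 0 < m := by positivity
  refine ⟨g * m / Sc M, by positivity, fun c hc hc0 x hq h => ?_⟩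
  by_contra hlt
  rw [not_le] at hlt
  have h1 := dom_b1 he hg hq h
  have h2 := qf_le he x
  have h3 : m ≤ qf e x ^ M * ‖x‖ ^ (2 * (M / 2)) := by
    refine (min_le_right _ _).trans ?_
    gcongr <;> linarith
  rw [le_div_iff₀ hS] at hc0
  have h4 : (c * Sc M) ^ 2 ≤ (g * m) ^ 2 := by gcongr
  have h5 : m ≤ 1 / 2 := min_le_left _ _
  have h6 : g ^ 2 * m ≤ g ^ 2 * (qf e x ^ M * ‖x‖ ^ (2 * (M / 2))) := by gcongr
  have h7 : 0 < g ^ 2 * m := by positivity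
  rw [mul_pow, mul_pow] at h4
  nlinarith

theorem dom_thin (hM : 1 ≤ M) (he : ‖e‖ = 1) {g ε : ℝ} (hg : 0 < g) (hε : 0 < ε) {x : VN M}
    (hx : ‖x‖ ≤ 1) (h : 0 < qf e x → g ≤ ε ^ M * Vf e x) :
    ‖tv e x‖ ≤ 2 * max 1 (Sc M / g) * ε := by
  set b := max 1 (Sc M / g) with hb
  have hb1 : 1 ≤ b := le_max_left _ _
  have h0 := tv_le he x
  rcases eq_or_lt_of_le (qf_nonneg he x) with hq | hq
  · rw [← hq] at h0
    have : 0 < 2 * b * ε := by positivity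
    nlinarith [norm_nonneg (tv e x)]
  have h1 := dom_b1 he hg hq (h hq)
  have hS : 0 < Sc M := zero_lt_one.trans_le one_le_Sc
  have h2 : Sc M ≤ g * b ^ M := by
    have h3 : Sc M / g ≤ b ^ M := (le_max_right _ _).trans (le_self_pow₀ hb1 (by omega))
    rwa [div_le_iff₀' hg] at h3
  have h3 : (‖tv e x‖ ^ 2) ^ M ≤ 2 ^ M * (qf e x ^ M * ‖x‖ ^ (2 * (M / 2))) := by
    refine (pow_le_pow_left₀ (sq_nonneg _) h0 M).trans ?_
    rw [mul_pow, mul_pow, mul_assoc]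
    gcongr 2 ^ M * (_ * ?_)
    exact pow_le_pow_of_le_one (norm_nonneg x) hx (by omega)
  have h4 : g ^ 2 * (‖tv e x‖ ^ 2) ^ M ≤ g ^ 2 * ((2 * b * ε) ^ 2) ^ M := by
    calc g ^ 2 * (‖tv e x‖ ^ 2) ^ M
        ≤ g ^ 2 * (2 ^ M * (qf e x ^ M * ‖x‖ ^ (2 * (M / 2)))) := by gcongr
      _ = 2 ^ M * (g ^ 2 * (qf e x ^ M * ‖x‖ ^ (2 * (M / 2)))) := by ring
      _ ≤ (2 ^ 2) ^ M * ((ε ^ M) ^ 2 * (g * b ^ M) ^ 2) := by
        refine mul_le_mul (by gcongr; norm_num) (h1.trans (by gcongr)) (by positivity)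
          (by positivity)
      _ = _ := by ring
  have h5 := le_of_mul_le_mul_left h4 (by positivity)
  rw [← pow_mul, ← pow_mul] at h5
  exact le_of_pow_le_pow_left₀ (by omega) (by positivity) h5

end Pool.Agent.Lib.MP_770c06_an.N
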