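import Mathlib
import Pool.Agent.Lib.MP_770c06_an.N.Dom

/-! The domain in dimension `M + 3` is linearly accessible. -/

open Metric Set Filter Topology InnerProductSpace
open scoped RealInnerProductSpace

namespace Pool.Agent.Lib.MP_770c06_an.N

variable {M : ℕ} {e f p : VN M} {z c : ℝ}

theorem acc_ray {D : Set (VN M)} {y w : VN M} (hw : w ≠ 0) (h : ∀ s : ℝ, 0 ≤ s → y + s • w ∉ D) :
    ∃ v : VN M, ‖v‖ = 1 ∧ ∀ s : ℝ, 0 ≤ s → y + s • v ∉ D := by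
  have hn : 0 < ‖w‖ := norm_pos_iff.2 hw
  refine ⟨‖w‖⁻¹ • w, by rw [norm_smul, norm_inv, norm_norm, inv_mul_cancel₀ hn.ne'],
    fun s hs => ?_⟩
  rw [smul_smul]
  exact h _ (by positivity)

theorem acc_out (F : Fr e f p z) (hc : 0 < c) {y : VN M} (hyp : y ≠ p)
    (hy : kr p y - 4⁻¹ ^ (M + 1) ≤ c * Vf e y) (hX : kr p y ≤ 2 * 4⁻¹ ^ (M + 1)) (hM : 1 ≤ M) :
    y ≠ 0 ∧ ∀ s : ℝ, 0 ≤ s → y + s • y ∉ Dom e p c := by
  have hρ : 0 < ‖y - p‖ := norm_pos_iff.2 (sub_ne_zero.2 hyp)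
  have h1 : 5 / 2 ≤ ‖y - p‖ := by
    by_contra h
    have h2 : (5 / 2 : ℝ)⁻¹ ^ (M + 1) ≤ kr p y :=
      pow_le_pow_left₀ (by positivity) (inv_anti₀ hρ (not_le.1 h).le) _
    have h3 : (8 / 5 : ℝ) ^ 2 ≤ (8 / 5) ^ (M + 1) := pow_le_pow_right₀ (by norm_num) (by omega)
    have h4 : (5 / 2 : ℝ)⁻¹ ^ (M + 1) = (8 / 5) ^ (M + 1) * 4⁻¹ ^ (M + 1) := by
      rw [← mul_pow]
      norm_num
    have h5 : (0 : ℝ) < 4⁻¹ ^ (M + 1) := by positivity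
    nlinarith
  have h2 : ‖p‖ ≤ ‖y‖ := by
    have := norm_sub_le y p
    have := F.p2
    linarith
  have hp1 := F.p1
  refine ⟨norm_pos_iff.1 (by linarith), fun s hs hx => ?_⟩
  have e1 : y + s • y = (1 + s) • y := by module
  rw [e1] at hx
  have h3 : (1 + s) * ‖y - p‖ ^ 2 ≤ ‖(1 + s) • y - p‖ ^ 2 := by
    rw [norm_sub_sq_real, norm_sub_sq_real, norm_smul, inner_smul_left,
      Real.norm_of_nonneg (by linarith)]
    simp only [conj_trivial]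
    have h4 : ‖p‖ ^ 2 ≤ ‖y‖ ^ 2 := by gcongr
    nlinarith [mul_nonneg hs (sub_nonneg.2 h4), mul_nonneg (sq_nonneg s) (sq_nonneg ‖y‖)]
  set τ := √(1 + s) with hτ
  have hτ2 : τ ^ 2 = 1 + s := Real.sq_sqrt (by linarith)
  have hτ1 : 1 ≤ τ := Real.le_sqrt_of_sq_le (by linarith)
  have h4 : τ * ‖y - p‖ ≤ ‖(1 + s) • y - p‖ := by
    refine le_of_pow_le_pow_left₀ two_ne_zero (norm_nonneg _) ?_
    rwa [mul_pow, hτ2]
  have h5 : 0 < τ * ‖y - p‖ := by positivity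
  have hxp : (1 + s) • y ≠ p := sub_ne_zero.1 (norm_pos_iff.1 (h5.trans_le h4))
  have h6 := ((mem_Dom hxp).1 hx).2
  have h7 := kr_le h5 h4
  have h8 := Vf_out F.he y (s := 1 + s) (by linarith)
  set u := τ⁻¹ ^ (M + 1) with hu
  have hu0 : 0 < u := by positivity
  have hu1 : u ≤ 1 := pow_le_one₀ (by positivity) (inv_le_one_of_one_le₀ hτ1)
  have e2 : (τ * ‖y - p‖)⁻¹ ^ (M + 1) = u * kr p y := by rw [mul_inv, mul_pow, kr]
  have e3 : (1 + s)⁻¹ ^ (M + 1) = u ^ 2 := by rw [← hτ2, ← inv_pow, ← pow_mul, mul_comm, pow_mul]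
  rw [e2] at h7
  rw [e3] at h8
  have h9 := mul_le_mul_of_nonneg_left h8 hc.le
  have h10 := mul_le_mul_of_nonneg_left hy (sq_nonneg u)
  have hC : (0 : ℝ) < 4⁻¹ ^ (M + 1) := by positivity
  generalize (4⁻¹ : ℝ) ^ (M + 1) = C at *
  have h11 : kr p y * u ≤ C * (1 + u) := by nlinarith [kr_nonneg p y]
  nlinarith [mul_le_mul_of_nonneg_right h11 (sub_nonneg.2 hu1)]

theorem acc_num {ρ ρ' σ : ℝ} (hz : z ≤ 1 / (1024 * (M + 1))) (hz0 : 0 < z) (hρ : 1 / 2 ≤ ρ)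
    (h0 : 0 ≤ σ) (h1 : σ < 1) (h' : 0 ≤ ρ') (h : ρ ^ 2 - 36 * σ * z ≤ ρ' ^ 2) :
    0 < ρ' ∧ ρ'⁻¹ ^ (M + 1) ≤ (1 + σ / 4) * ρ⁻¹ ^ (M + 1) := by
  have hM : (0 : ℝ) ≤ M := by positivity
  rw [le_div_iff₀ (by positivity)] at hz
  have ha0 : 0 ≤ 144 * σ * z := by positivity
  have ha : (M + 1) * (144 * σ * z) ≤ 9 * σ / 64 := by nlinarith
  have ha1 : 144 * σ * z ≤ 9 / 64 := by nlinarith [mul_nonneg hM ha0]
  set a := 144 * σ * z with hadef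
  have h2 : ρ * (1 - a) ≤ ρ' := by
    refine le_of_pow_le_pow_left₀ two_ne_zero h' (le_trans ?_ h)
    have h3 : 1 / 4 ≤ ρ ^ 2 := by nlinarith
    have h4 : 36 * σ * z = a / 4 := by rw [hadef]; ring
    have h5 : (1 - a) ^ 2 ≤ 1 - a := by nlinarith
    rw [h4, mul_pow]
    nlinarith [mul_le_mul_of_nonneg_left h5 (sq_nonneg ρ)]
  have hρ0 : 0 < ρ := by linarith
  have h3 : 0 < ρ * (1 - a) := mul_pos hρ0 (by linarith)
  refine ⟨h3.trans_le h2, (pow_le_pow_left₀ (by positivity) (inv_anti₀ h3 h2) _).trans ?_⟩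
  rw [mul_inv, mul_pow, mul_comm]
  refine mul_le_mul_of_nonneg_right ?_ (by positivity)
  have h4 : 1 + ((M + 1 : ℕ) : ℝ) * (-a) ≤ (1 + -a) ^ (M + 1) := one_add_mul_le_pow (by linarith) _
  push_cast at h4
  have h5 : 1 - 9 * σ / 64 ≤ (1 - a) ^ (M + 1) := by
    rw [sub_eq_add_neg 1 a]
    linarith
  rw [inv_pow, inv_le_iff_one_le_mul₀ (pow_pos (by linarith) _)]
  nlinarith [mul_le_mul_of_nonneg_left h5 (show 0 ≤ 1 + σ / 4 by positivity)]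

theorem acc_in (F : Fr e f p z) (hc : 0 < c) {y : VN M} (hρ : ‖y - p‖ ≤ 4)
    (hy : kr p y - 4⁻¹ ^ (M + 1) ≤ c * Vf e y) (hX : 2 * 4⁻¹ ^ (M + 1) ≤ kr p y) (hM : 1 ≤ M)
    (hq : qf e y ≤ z ^ 2 / 12) :
    (7 : ℝ) • e - y ≠ 0 ∧ ∀ s : ℝ, 0 ≤ s → y + s • ((7 : ℝ) • e - y) ∉ Dom e p c := by
  have hR := F.norm_le hρ
  have hz0 := F.z0
  have hz1 := F.zle
  have hq0 := qf_nonneg F.he y
  have hee : ⟪e, e⟫ = 1 := by rw [real_inner_self_eq_norm_sq, F.he, one_pow]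
  have hzy : ⟪e, y⟫ ≤ 6 := by
    have : ⟪e, y⟫ = ‖y‖ - qf e y := by simp [qf]
    linarith
  have hew : ⟪e, (7 : ℝ) • e - y⟫ = 7 - ⟪e, y⟫ := by
    rw [inner_sub_right, inner_smul_right, hee, mul_one]
  refine ⟨fun h => ?_, fun s hs hx => ?_⟩
  · rw [h, inner_zero_right] at hew
    linarith
  rcases le_or_gt 1 s with h1 | h1
  · have h2 := Dom_lt F.he hc hx
    have h3 := real_inner_le_norm e (y + s • ((7 : ℝ) • e - y) - p)
    rw [F.he, one_mul, inner_sub_right, inner_add_right, inner_smul_right, hew, F.ep] at h3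
    nlinarith
  have hr2 := tv_le F.he y
  have hr : ‖tv e y‖ ≤ z := by
    refine le_of_pow_le_pow_left₀ two_ne_zero hz0.le (hr2.trans ?_)
    nlinarith [norm_nonneg y]
  have hρ2 : 1 / 2 ≤ ‖y - p‖ := by linarith [F.rho y]
  have hin : -(18 * z) ≤ ⟪y - p, (7 : ℝ) • e - y⟫ := by
    have e1 : ⟪y - p, (7 : ℝ) • e - y⟫ =
        (⟪e, y⟫ - z) * (7 - ⟪e, y⟫) - ‖tv e y‖ ^ 2 + ⟪f, y⟫ := by
      have e2 : ⟪p, y⟫ = ⟪f, y⟫ + z * ⟪e, y⟫ := by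
        rw [F.hp, inner_add_left, inner_smul_left, conj_trivial]
      rw [tv_sq F.he, inner_sub_left, inner_sub_right, inner_sub_right, inner_smul_right,
        inner_smul_right, real_inner_self_eq_norm_sq, real_inner_comm e y, real_inner_comm e p,
        F.ep, e2]
      ring
    have h2 := neg_q_le (e := e) y
    have h3 := (neg_abs_le _).trans' (neg_le_neg (F.fx y))
    have h4 : qf e y ≤ z := by nlinarith
    have h5 : ‖tv e y‖ ^ 2 ≤ z := by nlinarith [norm_nonneg (tv e y)]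
    have h6 : -(16 * z) ≤ (⟪e, y⟫ - z) * (7 - ⟪e, y⟫) := by
      rcases le_total z ⟪e, y⟫ with h | h
      · nlinarith [mul_nonneg (sub_nonneg.2 h) (show 0 ≤ 7 - ⟪e, y⟫ by linarith)]
      · nlinarith
    linarith
  have h2 : ‖y - p‖ ^ 2 - 36 * s * z ≤ ‖y + s • ((7 : ℝ) • e - y) - p‖ ^ 2 := by
    rw [add_sub_right_comm, norm_add_sq_real, inner_smul_right]
    nlinarith [mul_le_mul_of_nonneg_left hin hs, sq_nonneg ‖s • ((7 : ℝ) • e - y)‖]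
  obtain ⟨h3, h4⟩ := acc_num F.z1 hz0 hρ2 hs h1 (norm_nonneg _) h2
  have h5 := ((mem_Dom (sub_ne_zero.1 (norm_pos_iff.1 h3))).1 hx)
  have e1 : y + s • ((7 : ℝ) • e - y) = (1 - s) • y + (7 * s) • e := by module
  have h6 := Vf_up F.he ((1 - s) • y) (s := 7 * s) (by positivity) (e1 ▸ h5.1)
  rw [← e1] at h6
  have h7 := mul_le_mul_of_nonneg_left ((Vf_in hM F.he y hs h1).trans h6) hc.le
  have h8 := mul_le_mul_of_nonneg_left hy (show 0 ≤ 1 + s / 2 by positivity)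
  have h9 := h5.2
  change kr p _ ≤ _ * kr p y at h4
  generalize (4⁻¹ : ℝ) ^ (M + 1) = C at *
  nlinarith [mul_le_mul_of_nonneg_left hX hs]

theorem Fr.access (F : Fr e f p z) (hM : 1 ≤ M) (hc : 0 < c)
    (hs : ∀ x : VN M, 0 < qf e x → 4⁻¹ ^ (M + 1) ≤ c * Vf e x → qf e x ≤ z ^ 2 / 12) :
    LinearlyAccessible (Dom e p c) := by
  refine ⟨isOpen_Dom F.he, fun y hy => ?_⟩
  rcases eq_or_lt_of_le (qf_nonneg F.he y) with hq | hq
  · refine ⟨e, F.he, fun s hs hx => ?_⟩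
    have := qf_up F.he y hs
    linarith [hx.1]
  have hyp : y ≠ p := by
    rintro rfl
    exact hy F.pole_mem
  have h1 : kr p y - 4⁻¹ ^ (M + 1) ≤ c * Vf e y :=
    not_lt.1 fun h => hy ((mem_Dom hyp).2 ⟨hq, h⟩)
  rcases le_total (kr p y) (2 * 4⁻¹ ^ (M + 1)) with hX | hX
  · exact acc_ray (acc_out F hc hyp h1 hX hM).1 (acc_out F hc hyp h1 hX hM).2
  have hρ : ‖y - p‖ ≤ 4 := by
    by_contra h
    have h2 := kr_le (by norm_num) (not_le.1 h).le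
    have hC : (0 : ℝ) < 4⁻¹ ^ (M + 1) := by positivity
    linarith
  have h2 := acc_in F hc hρ h1 hX hM (hs y hq (by linarith))
  exact acc_ray h2.1 h2.2

end Pool.Agent.Lib.MP_770c06_an.N
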