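import Mathlib
import Pool.Agent.Lib.MP_770c06_an.N.Access

/-! A trapped point outside a superlevel set, in dimension `M + 3`. -/

open Metric Set Filter Topology InnerProductSpace
open scoped RealInnerProductSpace

namespace Pool.Agent.Lib.MP_770c06_an.N

variable {M : ℕ} {e f p : VN M} {z c : ℝ}

/-- the superlevel set -/
def Om (e p : VN M) (c t : ℝ) : Set (VN M) :=
  {x | x ∈ Dom e p c ∧ ENNReal.ofReal t < greenOf p (Hf e c) x}

theorem mem_Om {t : ℝ} (ht : 0 ≤ t) {x : VN M} (hx : x ≠ p) :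
    x ∈ Om e p c t ↔ 0 < qf e x ∧ c * Vf e x < kr p x - 4⁻¹ ^ (M + 1) - t := by
  rw [Om, mem_ofPred_eq, mem_Dom hx, greenOf_ne _ hx, ENNReal.ofReal_lt_ofReal_iff_of_nonneg ht, Hf]
  constructor
  · exact fun h => ⟨h.1.1, by linarith [h.2]⟩
  · exact fun h => ⟨⟨h.1, by linarith [h.2]⟩, by linarith [h.2]⟩

theorem Fr.ne (F : Fr e f p z) {x : VN M} (hx : ‖x‖ < 1) : x ≠ p := by
  rintro rfl
  linarith [F.p1]

theorem trap_lip (F : Fr e f p z) : ∃ L δ : ℝ, 1 ≤ L ∧ 0 < δ ∧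
    ∀ x : VN M, ‖x‖ < δ → |kr p x - kr p 0| ≤ L * ‖x‖ := by
  have h := ((newton_harm (F.ne (x := 0) (by simp))).1.differentiableAt
    (by norm_num)).hasFDerivAt.isBigO_sub
  obtain ⟨L, hL⟩ := h.bound
  obtain ⟨δ, hδ, hb⟩ := Metric.eventually_nhds_iff.1 hL
  refine ⟨max 1 L, δ, le_max_left _ _, hδ, fun x hx => ?_⟩
  have := hb (y := x) (by simpa using hx)
  rw [sub_zero, Real.norm_eq_abs] at this
  exact this.trans (mul_le_mul_of_nonneg_right (le_max_right _ _) (norm_nonneg _))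

theorem trap_one (F : Fr e f p z) {s : ℝ} (h0 : 0 < s) (h1 : s ≤ z) : ∃ g σ : ℝ, 0 < g ∧ 0 < σ ∧
    ∀ x : VN M, ‖x - s • e‖ < σ → g ≤ kr p x - kr p 0 := by
  have hz := F.zle
  have hs : ‖s • e‖ < 1 := by
    rw [norm_smul, F.he, Real.norm_of_nonneg h0.le]
    linarith
  have h2 : ‖s • e - p‖ < ‖0 - p‖ := by
    refine lt_of_pow_lt_pow_left₀ 2 (norm_nonneg _) ?_
    rw [F.axis, zero_sub, norm_neg, F.psq]
    nlinarith
  have h3 : kr p 0 < kr p (s • e) :=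
    pow_lt_pow_left₀ (inv_strictAnti₀ (norm_pos_iff.2 (sub_ne_zero.2 (F.ne hs))) h2)
      (by positivity) (by omega)
  have h4 := (newton_harm (F.ne hs)).1.continuousAt.eventually
    (lt_mem_nhds (show (kr p 0 + kr p (s • e)) / 2 < kr p (s • e) by linarith))
  obtain ⟨σ, hσ, hb⟩ := Metric.eventually_nhds_iff.1 h4
  refine ⟨(kr p (s • e) - kr p 0) / 2, σ, by linarith, hσ, fun x hx => ?_⟩
  have := hb (y := x) (by rwa [dist_eq_norm])
  linarith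

theorem trap_two (F : Fr e f p z) : ∃ g σ : ℝ, 0 < g ∧ 0 < σ ∧ σ ≤ 1 / 2 ∧
    ∀ s, s = z / 2 ∨ s = z → ∀ x : VN M, ‖x - s • e‖ < σ → g ≤ kr p x - kr p 0 := by
  have hz := F.z0
  obtain ⟨g, σ, h1, h2, h3⟩ := trap_one F (s := z / 2) (by linarith) (by linarith)
  obtain ⟨g', σ', h1', h2', h3'⟩ := trap_one F hz le_rfl
  refine ⟨min g g', min (min σ σ') (1 / 2), by positivity, by positivity, min_le_right _ _, ?_⟩
  rintro s (rfl | rfl) x hx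
  · exact (min_le_left _ _).trans (h3 x (hx.trans_le ((min_le_left _ _).trans (min_le_left _ _))))
  · exact (min_le_right _ _).trans
      (h3' x (hx.trans_le ((min_le_left _ _).trans (min_le_right _ _))))

theorem trap_w0 (F : Fr e f p z) : 0 < kr p 0 - 4⁻¹ ^ (M + 1) := by
  have h1 := F.p1
  have h2 := F.p2
  rw [sub_pos, kr, zero_sub, norm_neg]
  exact pow_lt_pow_left₀ (inv_strictAnti₀ (by linarith) (by linarith)) (by positivity) (by omega)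

theorem trap_dir (he : ‖e‖ = 1) {v : VN M} (hv : ‖v‖ = 1) {θ : ℝ} (h : ‖tv e v‖ ≤ θ)
    (hθ : θ ≤ 1 / 2) (h2 : -(3 / 4) ≤ ⟪e, v⟫) : ‖v - e‖ ≤ 2 * θ := by
  have h0 := norm_nonneg (tv e v)
  have h3 := tv_sq he v
  have h4 : ‖tv e v‖ ^ 2 ≤ θ ^ 2 := by gcongr
  have h5 := real_inner_le_norm e v
  rw [he, hv] at h5
  rw [hv] at h3
  have h6 : 0 ≤ ⟪e, v⟫ := by
    by_contra h7
    nlinarith
  refine le_of_pow_le_pow_left₀ two_ne_zero (by linarith) ?_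
  rw [norm_sub_sq_real, hv, he, real_inner_comm]
  nlinarith

theorem trap_y (F : Fr e f p z) (ζ r : ℝ) :
    ⟪e, ζ • e + r • f⟫ = ζ ∧ tv e (ζ • e + r • f) = r • f := by
  have h : ⟪e, ζ • e + r • f⟫ = ζ := by
    rw [inner_add_right, inner_smul_right, inner_smul_right, F.hef, real_inner_self_eq_norm_sq,
      F.he]
    ring
  refine ⟨h, ?_⟩
  rw [tv, h]
  module

theorem trap_bulb (he : ‖e‖ = 1) {y : VN M} {ζ ε B : ℝ} (hζ : 0 < ζ) (hζ1 : ζ ≤ 1) (_hε : 0 < ε)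
    (hq : 0 < qf e y) (h1 : ⟪e, y⟫ = ζ) (h2 : ‖tv e y‖ = B * ε) (h3 : ‖y‖ ≤ 2 * ζ) :
    ζ ≤ (ε ^ M * Vf e y) ^ 2 * ((B ^ 2) ^ M * 2 ^ M) := by
  have h4 : qf e y * ζ ≤ (B * ε) ^ 2 := by
    rw [← h2, tv_q he, h1]
    nlinarith [norm_nonneg y]
  have h5 := Vf_sq_lb he hq
  have h6 : ζ ^ (2 * (M / 2)) * ζ ≤ ζ ^ M := by
    rw [← pow_succ]
    exact pow_le_pow_of_le_one hζ.le hζ1 (by omega)
  have h7 : ‖y‖ ^ (2 * (M / 2)) ≤ 2 ^ M * ζ ^ (2 * (M / 2)) := by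
    refine (pow_le_pow_left₀ (norm_nonneg y) h3 _).trans ?_
    rw [mul_pow]
    exact mul_le_mul_of_nonneg_right (pow_le_pow_right₀ one_le_two (by omega)) (by positivity)
  have h8 : qf e y ^ M * ζ ^ M ≤ ((B * ε) ^ 2) ^ M := by
    rw [← mul_pow]
    gcongr
  have h9 : ζ ^ (2 * (M / 2)) * ζ ≤
      ζ ^ (2 * (M / 2)) * ((ε ^ M * Vf e y) ^ 2 * ((B ^ 2) ^ M * 2 ^ M)) :=
    calc _ ≤ 1 * ζ ^ M := by rwa [one_mul]
      _ ≤ Vf e y ^ 2 * (qf e y ^ M * ‖y‖ ^ (2 * (M / 2))) * ζ ^ M := by gcongr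
      _ = Vf e y ^ 2 * (qf e y ^ M * ζ ^ M) * ‖y‖ ^ (2 * (M / 2)) := by ring
      _ ≤ Vf e y ^ 2 * ((B * ε) ^ 2) ^ M * (2 ^ M * ζ ^ (2 * (M / 2))) := by gcongr
      _ = _ := by ring
  exact le_of_mul_le_mul_left h9 (by positivity)

theorem trap_main (F : Fr e f p z) (hM : 1 ≤ M) : ∃ t c0 : ℝ, 0 < t ∧ 0 < c0 ∧
    ∀ c1, 0 < c1 → ∃ c, 0 < c ∧ c ≤ c1 ∧ ∃ y, y ∉ Om e p c t ∧
      ∀ v : VN M, ‖v‖ = 1 → ∃ s : ℝ, 0 ≤ s ∧ y + s • v ∈ Om e p c t := by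
  obtain ⟨L, δ, hL, hδ, hlip⟩ := trap_lip F
  obtain ⟨g, σ, hg, hσ, hσ2, htwo⟩ := trap_two F
  have hw := trap_w0 F
  have hz0 := F.z0
  have hz1 := F.zle
  set b := max 1 (Sc M / g) with hb
  have hb0 : 0 < b := zero_lt_one.trans_le (le_max_left _ _)
  set A : ℝ := ((8 * b) ^ 2) ^ M * 2 ^ M with hA
  have hA0 : 0 < A := by positivity
  have small : ∀ {K a : ℝ}, 0 < a → ∀ᶠ ζ in 𝓝[>] (0 : ℝ), K * ζ < a := by
    intro K a ha
    have : Tendsto (fun ζ : ℝ => K * ζ) (𝓝 0) (𝓝 (K * 0)) := tendsto_id.const_mul K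
    rw [mul_zero] at this
    exact (this.eventually (gt_mem_nhds ha)).filter_mono nhdsWithin_le_nhds
  obtain ⟨ζ, hζ, k1, k2, k3, k4⟩ : ∃ ζ : ℝ, 0 < ζ ∧ 5 * ζ < δ ∧ 4 * ζ < σ ∧
      8 * L * ζ < kr p 0 - 4⁻¹ ^ (M + 1) ∧ 100 * L ^ 2 * A * ζ < 1 :=
    ((eventually_mem_nhdsWithin.and ((small hδ).and ((small hσ).and
      ((small hw).and (small one_pos))))).exists)
  set t := kr p 0 - 4⁻¹ ^ (M + 1) - 8 * L * ζ with ht
  have ht0 : 0 < t := by linarith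
  have hg1 : 0 < 4 * L * ζ := by positivity
  obtain ⟨c0, hc0, hsm⟩ := dom_small F.he hg1 (half_pos hζ)
  set b1 := max 1 (Sc M / (4 * L * ζ)) with hb1
  refine ⟨t, 1, ht0, one_pos, fun c1 hc1 => ?_⟩
  obtain ⟨ε, hε, m1, m2, m3, m4, m5⟩ : ∃ ε : ℝ, 0 < ε ∧ 1 * ε < 1 ∧ 1 * ε < min c0 c1 ∧
      8 * b * ε < ζ ∧ (2 * b1 + 8 * b) * ε < ζ ∧ (2 * b1 + 8 * b) * ε < ζ * σ / 4 :=
    ((eventually_mem_nhdsWithin.and ((small one_pos).and ((small (by positivity)).and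
      ((small hζ).and ((small hζ).and (small (by positivity))))))).exists)
  rw [one_mul] at m1 m2
  have hεM : ε ^ M ≤ ε := pow_le_of_le_one hε.le m1.le (by omega)
  have hc : 0 < ε ^ M := by positivity
  obtain ⟨y1, y2⟩ := trap_y F ζ (8 * b * ε)
  set y := ζ • e + (8 * b * ε) • f with hy
  have hr0 : 0 < 8 * b * ε := by positivity
  have y3 : ‖tv e y‖ = 8 * b * ε := by
    rw [y2, norm_smul, F.hf, mul_one, Real.norm_of_nonneg hr0.le]
  have y4 : ‖y‖ ≤ 2 * ζ := by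
    refine le_of_pow_le_pow_left₀ two_ne_zero (by linarith) ?_
    have := tv_sq F.he y
    rw [y1, y3] at this
    nlinarith
  have out : ∀ {x : VN M} {a : ℝ}, ‖x‖ < 1 → x ∉ Om e p (ε ^ M) t →
      a ≤ kr p x - kr p 0 + 8 * L * ζ → 0 < qf e x → a ≤ ε ^ M * Vf e x := by
    intro x a h1 h2 h3 h4
    have := not_lt.1 fun h => h2 ((mem_Om ht0.le (F.ne h1)).2 ⟨h4, h⟩)
    linarith
  refine ⟨ε ^ M, hc, hεM.trans (m2.le.trans (min_le_right _ _)), y, fun h => ?_, fun v hv => ?_⟩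
  · obtain ⟨h1, h2⟩ := (mem_Om ht0.le (F.ne (by linarith))).1 h
    have h3 := trap_bulb F.he hζ (by linarith) hε h1 y1 y3 y4
    have h4 := (le_abs_self _).trans (hlip y (by linarith))
    have h5 : L * ‖y‖ ≤ L * (2 * ζ) := by gcongr
    have h6 : (ε ^ M * Vf e y) ^ 2 ≤ (10 * L * ζ) ^ 2 :=
      pow_le_pow_left₀ (mul_nonneg hc.le (Vf_nonneg F.he y)) (by linarith) 2
    have h7 := h3.trans (mul_le_mul_of_nonneg_right h6 hA0.le)
    nlinarith [mul_lt_mul_of_pos_left k4 hζ]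
  by_contra hno
  have hno' : ∀ s : ℝ, 0 ≤ s → y + s • v ∉ Om e p (ε ^ M) t := fun s hs h => hno ⟨s, hs, h⟩
  have n1 : ‖y + (2 * ζ) • v‖ ≤ 4 * ζ := by
    refine (norm_add_le _ _).trans ?_
    rw [norm_smul, hv, Real.norm_of_nonneg (by linarith)]
    linarith
  have n2 : 0 < qf e (y + (2 * ζ) • v) → 4 * L * ζ ≤ ε ^ M * Vf e (y + (2 * ζ) • v) := by
    refine out (by linarith) (hno' _ (by linarith)) ?_
    have h4 := (neg_abs_le _).trans' (neg_le_neg (hlip (y + (2 * ζ) • v) (by linarith)))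
    have h5 : L * ‖y + (2 * ζ) • v‖ ≤ L * (4 * ζ) := by gcongr
    linarith
  have n3 := dom_thin hM F.he hg1 hε (by linarith) n2
  have n4 : qf e (y + (2 * ζ) • v) ≤ ζ / 2 := by
    rcases eq_or_lt_of_le (qf_nonneg F.he (y + (2 * ζ) • v)) with h | h
    · linarith
    · exact hsm _ hc (hεM.trans (m2.le.trans (min_le_left _ _))) _ h (n2 h)
  have n5 : -(3 / 4) ≤ ⟪e, v⟫ := by
    have h := neg_q_le (e := e) (y + (2 * ζ) • v)
    rw [inner_add_right, inner_smul_right, y1] at h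
    by_contra h'
    nlinarith [mul_pos hζ (sub_pos.2 (not_le.1 h'))]
  have n6 : 2 * ζ * ‖tv e v‖ ≤ (2 * b1 + 8 * b) * ε := by
    have h := norm_sub_le (tv e (y + (2 * ζ) • v)) (tv e y)
    rw [tv_line, add_sub_cancel_left, norm_smul, Real.norm_of_nonneg (by linarith), ← tv_line,
      y3] at h
    linarith
  have n7 : ‖tv e v‖ ≤ min (1 / 2) (σ / 8) := by
    refine le_min (le_of_mul_le_mul_left ?_ hζ) (le_of_mul_le_mul_left ?_ hζ) <;> linarith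
  have n8 := trap_dir F.he hv n7 (min_le_left _ _) n5
  have n9 : ‖v - e‖ ≤ σ / 4 := by linarith [min_le_right (1 / 2) (σ / 8)]
  have key : ∀ s, s = z / 2 ∨ s = z → ‖tv e (y + s • v)‖ ≤ 2 * b * ε := by
    intro s hs
    have h0 : 0 ≤ s ∧ s ≤ 1 / 4 := by rcases hs with h | h <;> constructor <;> linarith
    have h1 : ‖y + s • v - s • e‖ < σ := by
      rw [add_sub_assoc, ← smul_sub]
      refine (norm_add_le _ _).trans_lt ?_
      rw [norm_smul, Real.norm_of_nonneg h0.1]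
      nlinarith [mul_le_mul h0.2 n9 (norm_nonneg _) (by norm_num)]
    have h2 : ‖y + s • v‖ < 1 := by
      refine (norm_add_le _ _).trans_lt ?_
      rw [norm_smul, Real.norm_of_nonneg h0.1, hv]
      linarith
    exact dom_thin hM F.he hg hε h2.le (out h2 (hno' s h0.1) (by linarith [htwo s hs _ h1]))
  have e1 : tv e y = (2 : ℝ) • tv e (y + (z / 2) • v) - tv e (y + z • v) := by
    rw [tv_line y v (z / 2), tv_line y v z]
    module
  have e2 := norm_sub_le ((2 : ℝ) • tv e (y + (z / 2) • v)) (tv e (y + z • v))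
  rw [← e1, y3, norm_smul, Real.norm_ofNat] at e2
  linarith [key _ (Or.inl rfl), key _ (Or.inr rfl), mul_pos hb0 hε]

theorem exists_Fr (M : ℕ) : ∃ (e f p : VN M) (z : ℝ), Fr e f p z :=
  ⟨EuclideanSpace.single 0 1, EuclideanSpace.single 1 1, _, 1 / (1024 * (M + 1)), by simp, by simp,
    by simp [EuclideanSpace.inner_single_left], rfl, by positivity, le_rfl⟩

theorem main (hM : 1 ≤ M) : ∃ (D : Set (VN M)) (x₀ : VN M) (g : VN M → ENNReal) (t : ℝ) (y : VN M),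
    IsConnected D ∧ LinearlyAccessible D ∧ x₀ ∈ D ∧ IsGreenFunction D x₀ g ∧ 0 < t ∧
    y ∉ {x | x ∈ D ∧ ENNReal.ofReal t < g x} ∧
    ∀ v : VN M, ‖v‖ = 1 → ∃ s : ℝ, 0 ≤ s ∧ y + s • v ∈ {x | x ∈ D ∧ ENNReal.ofReal t < g x} := by
  obtain ⟨e, f, p, z, F⟩ := exists_Fr M
  have hz := F.z0
  obtain ⟨c1, hc1, hs⟩ := dom_small F.he (g := 4⁻¹ ^ (M + 1)) (δ := z ^ 2 / 12) (by positivity)
    (by positivity)
  obtain ⟨t, -, ht, -, h⟩ := trap_main F hM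
  obtain ⟨c, hc, hc', y, h1, h2⟩ := h c1 hc1
  exact ⟨Dom e p c, p, greenOf p (Hf e c), t, y, (F.green hM hc).1, F.access hM hc (hs c hc hc'),
    F.pole_mem, (F.green hM hc).2, ht, h1, h2⟩

end Pool.Agent.Lib.MP_770c06_an.N
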